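import Pool.Agent.Helper95.KZ.Goals

/-!
# Project KZ: BAL
-/

set_option autoImplicit false

namespace Pool.Agent.Helper38.KZ

open Pool.Agent.Helper52.Wq2 Pool.Agent.Helper61.NW Pool.Agent.Helper95.KZ

universe u

/-- A connected set inside `s` which meets a closed subset `A` of `s` lies in `A`. -/
theorem conn_sub {V : Type u} {G : SimpleGraph V} {s t A : Set V} (ht : Conn G t) (hts : t ⊆ s)
    (hA : ∀ a ∈ A, ∀ b ∈ s, G.Adj a b → b ∈ A) (x : V) (hx : x ∈ t) (hxA : x ∈ A) : t ⊆ A := by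
  have h := ht.2 (A ∩ t) Set.inter_subset_right ⟨x, hxA, hx⟩
    (fun a ha b hb hab => ⟨hA a ha.1 b (hts hb) hab, hb⟩)
  exact fun y hy => (h hy).1

/-- Union of connected sets through one point. -/
theorem conn_iUnion {V : Type u} {G : SimpleGraph V} (F : Set (Set V)) (x₀ : V)
    (hF : F.Nonempty) (h : ∀ t ∈ F, Conn G t ∧ x₀ ∈ t) : Conn G (⋃₀ F) := by
  obtain ⟨t₀, ht₀⟩ := hF
  refine ⟨⟨x₀, t₀, ht₀, (h t₀ ht₀).2⟩, ?_⟩
  rintro A hA ⟨a, ha⟩ hcl x ⟨t, ht, hxt⟩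
  obtain ⟨u, hu, hau⟩ := hA ha
  have h1 : x₀ ∈ A := conn_sub (h u hu).1 (Set.subset_sUnion_of_mem hu) hcl a hau ha (h u hu).2
  exact conn_sub (h t ht).1 (Set.subset_sUnion_of_mem ht) hcl x₀ (h t ht).2 h1 hxt

theorem conn_union {V : Type u} {G : SimpleGraph V} {s t : Set V} (hs : Conn G s) (ht : Conn G t)
    (x : V) (hx : x ∈ s) (hx' : x ∈ t) : Conn G (s ∪ t) := by
  rw [← Set.sUnion_pair]
  refine conn_iUnion _ x (Set.insert_nonempty _ _) ?_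
  rintro u (rfl | rfl)
  · exact ⟨hs, hx⟩
  · exact ⟨ht, hx'⟩

theorem conn_singleton {V : Type u} (G : SimpleGraph V) (x : V) : Conn G {x} := by
  refine ⟨⟨x, rfl⟩, ?_⟩
  rintro A hA ⟨a, ha⟩ - y rfl
  have := hA ha
  rw [Set.mem_singleton_iff] at this
  rw [← this]
  exact ha

section

variable {Γ : Type u} [Group Γ] {S : Set Γ}

theorem cay_left (γ g g' : Γ) : (cay S).Adj (γ * g) (γ * g') ↔ (cay S).Adj g g' := by
  unfold cay
  rw [SimpleGraph.fromRel_adj, SimpleGraph.fromRel_adj]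
  refine and_congr ⟨fun h e => h (by rw [e]), fun h e => h (mul_left_cancel e)⟩ ?_
  simp [mul_assoc]

/-- The translate of a connected set. -/
theorem conn_mul (γ : Γ) {s : Set Γ} (hs : Conn (cay S) s) : Conn (cay S) {x | ∃ y ∈ s, x = γ * y} := by
  obtain ⟨⟨x₀, hx₀⟩, h⟩ := hs
  refine ⟨⟨γ * x₀, x₀, hx₀, rfl⟩, ?_⟩
  rintro A hA ⟨a, ha⟩ hcl x ⟨y, hy, rfl⟩
  obtain ⟨a', ha', rfl⟩ := hA ha
  have h1 := h {y | y ∈ s ∧ γ * y ∈ A} (fun y hy => hy.1) ⟨a', ha', ha⟩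
    (fun b hb c hc hbc => ⟨hc, hcl _ hb.2 _ ⟨c, hc, rfl⟩ ((cay_left γ b c).2 hbc)⟩)
  exact (h1 hy).2

theorem exists_conn (hS : IsGen S) (g : Γ) :
    ∃ E : Set Γ, E.Finite ∧ Conn (cay S) E ∧ (1 : Γ) ∈ E ∧ g ∈ E := by
  have key : ∀ u : Γ, u ∈ Subgroup.closure S →
      ∃ E : Set Γ, E.Finite ∧ Conn (cay S) E ∧ (1 : Γ) ∈ E ∧ u ∈ E := by
    intro u hu
    induction hu using Subgroup.closure_induction with
    | mem u hu =>
      refine ⟨{1, u}, by simp, ?_, by simp, by simp⟩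
      have hne : (1 : Γ) ≠ u := by
        rintro rfl
        exact hS.2.2 hu
      have hadj : (cay S).Adj 1 u := by
        unfold cay
        rw [SimpleGraph.fromRel_adj]
        exact ⟨hne, Or.inl (by simpa using hu)⟩
      refine ⟨⟨1, by simp⟩, ?_⟩
      rintro A hA ⟨a, ha⟩ hcl
      have h1 : (1 : Γ) ∈ A := by
        rcases hA ha with rfl | h2
        · exact ha
        · rw [Set.mem_singleton_iff] at h2
          subst h2
          exact hcl _ ha _ (by simp) hadj.symm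
      have h2 : u ∈ A := hcl _ h1 _ (by simp) hadj
      rintro x (rfl | hx)
      · exact h1
      · rw [Set.mem_singleton_iff] at hx
        rw [hx]
        exact h2
    | one => exact ⟨{1}, by simp, conn_singleton _ _, rfl, rfl⟩
    | mul u v _ _ hu hv =>
      obtain ⟨E, hE1, hE2, hE3, hE4⟩ := hu
      obtain ⟨F, hF1, hF2, hF3, hF4⟩ := hv
      refine ⟨E ∪ {x | ∃ y ∈ F, x = u * y}, hE1.union ?_,
        conn_union hE2 (conn_mul u hF2) u hE4 ⟨1, hF3, (mul_one u).symm⟩, Or.inl hE3,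
        Or.inr ⟨v, hF4, rfl⟩⟩
      refine (hF1.image (fun y => u * y)).subset ?_
      rintro x ⟨y, hy, rfl⟩
      exact ⟨y, hy, rfl⟩
    | inv u _ hu =>
      obtain ⟨E, hE1, hE2, hE3, hE4⟩ := hu
      refine ⟨{x | ∃ y ∈ E, x = u⁻¹ * y}, ?_, conn_mul u⁻¹ hE2, ⟨u, hE4, by simp⟩,
        ⟨1, hE3, by simp⟩⟩
      refine (hE1.image (fun y => u⁻¹ * y)).subset ?_
      rintro x ⟨y, hy, rfl⟩
      exact ⟨y, hy, rfl⟩
  exact key g (by rw [hS.1]; trivial)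

/-- A finite connected set which contains `1` and a given finite set. -/
theorem exists_ball (hS : IsGen S) (R : Set Γ) (hR : R.Finite) :
    ∃ E : Set Γ, E.Finite ∧ Conn (cay S) E ∧ (1 : Γ) ∈ E ∧ R ⊆ E := by
  choose E h1 h2 h3 h4 using exists_conn (S := S) hS
  refine ⟨⋃₀ (E '' insert 1 R), ?_, ?_, ?_, ?_⟩
  · refine Set.Finite.sUnion ((hR.insert 1).image E) ?_
    rintro t ⟨g, -, rfl⟩
    exact h1 g
  · refine conn_iUnion _ 1 ⟨E 1, 1, Set.mem_insert _ _, rfl⟩ ?_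
    rintro t ⟨g, -, rfl⟩
    exact ⟨h2 g, h3 g⟩
  · exact ⟨E 1, ⟨1, Set.mem_insert _ _, rfl⟩, h3 1⟩
  · intro g hg
    exact ⟨E g, ⟨g, Set.mem_insert_of_mem _ hg, rfl⟩, h4 g⟩

end

/-- **BAL.** -/
theorem bal : BalStmt.{u} := by
  intro Γ _ S K R hS hK hR
  obtain ⟨B₀, hf, hc, h1, hsub⟩ := exists_ball (S := S) hS (R ∪ (K : Set Γ)) (hR.union hK)
  refine ⟨{x | ∃ k ∈ K, ∃ y ∈ B₀, x = k * y}, ?_, ?_, ?_, ?_⟩
  · refine (Set.Finite.image2 (fun k y => k * y) hK hf).subset ?_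
    rintro x ⟨k, hk, y, hy, rfl⟩
    exact ⟨k, hk, y, hy, rfl⟩
  · refine ⟨⟨1, 1, K.one_mem, 1, h1, (mul_one 1).symm⟩, ?_⟩
    rintro A hA ⟨a, ha⟩ hcl x ⟨k, hk, y, hy, rfl⟩
    have hin : ∀ k ∈ K, {x | ∃ y ∈ B₀, x = k * y} ⊆ {x | ∃ k ∈ K, ∃ y ∈ B₀, x = k * y} := by
      rintro k hk x ⟨y, hy, rfl⟩
      exact ⟨k, hk, y, hy, rfl⟩
    have step : ∀ k ∈ K, ∀ x ∈ A, (∃ y ∈ B₀, x = k * y) →
        {x | ∃ y ∈ B₀, x = k * y} ⊆ A := fun k hk x hx hx' =>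
      conn_sub (conn_mul k hc) (hin k hk) hcl x hx' hx
    obtain ⟨k', hk', y', hy', rfl⟩ := hA ha
    have h2 : k' ∈ A := step k' hk' _ ha ⟨y', hy', rfl⟩ ⟨1, h1, (mul_one k').symm⟩
    have h3 : k ∈ A := step 1 K.one_mem k' h2 ⟨k', hsub (Or.inr hk'), (one_mul k').symm⟩
      ⟨k, hsub (Or.inr hk), (one_mul k).symm⟩
    exact step k hk k h3 ⟨1, h1, (mul_one k).symm⟩ ⟨y, hy, rfl⟩
  · intro g hg
    exact ⟨1, K.one_mem, g, hsub (Or.inl hg), (one_mul g).symm⟩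
  · rintro k hk x ⟨k', hk', y, hy, rfl⟩
    exact ⟨k * k', K.mul_mem hk hk', y, hy, (mul_assoc _ _ _).symm⟩

end Pool.Agent.Helper38.KZ
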